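import Pool.Agent.Helper255.GG.Asm

/-!
# Almost all vertices of the Goldbach graphs lie in boundedly many balls of radius 5

There is a constant `K` such that in the finite Goldbach graph `G_n` and in the finite near Goldbach graph `G(n)`
all but at most `n / log^A n` vertices are within distance `5` of one of at most `K` vertices, for every fixed `A`
and all large `n`.

For almost all `x ≥ n/8` a positive proportion (independent of `A`) of the vertices has distance at most two from
the vertex `2x`.  The number of the paths `x, y, z` is bounded below with the binary Goldbach problem in windows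
for almost all even numbers, the number of the `y` for given `x, z` is bounded above with a sieve.  The small
vertices have a neighbour of this kind, since almost all even integers `2x` are differences `(y + x) - (y - x)` of
two primes in the expected number of ways.  A maximal family of such vertices with disjoint balls of radius two
has boundedly many members.
-/

set_option autoImplicit false

open Finset

namespace Pool.Agent.Results.MP_443e5f_co.FewBalls

open Pool.Agent.Helper255.GG

/-- the vertex set `{2, 4, …, 2n}` -/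
abbrev Vtx (n : ℕ) := {a : ℕ // Even a ∧ 2 ≤ a ∧ a ≤ 2 * n}

/-- the near Goldbach graph `G(n)` on `{2, 4, …, 2n}` -/
def near (n : ℕ) : SimpleGraph (Vtx n) where
  Adj a b := a ≠ b ∧ ((a.1 + b.1) / 2 = 1 ∨ ((a.1 + b.1) / 2).Prime ∧ (a.1 + b.1) / 2 ≠ 2 ∧
      (a.1 + b.1) / 2 < 2 * n) ∧
    (((a.1 : ℤ) - b.1).natAbs / 2 = 1 ∨ (((a.1 : ℤ) - b.1).natAbs / 2).Prime ∧
      ((a.1 : ℤ) - b.1).natAbs / 2 ≠ 2 ∧ ((a.1 : ℤ) - b.1).natAbs / 2 < 2 * n)
  symm := ⟨fun a b h => by
    rw [add_comm b.1 a.1, ← Int.natAbs_neg ((b.1 : ℤ) - a.1), neg_sub]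
    exact ⟨h.1.symm, h.2⟩⟩
  loopless := ⟨fun _ h => h.1 rfl⟩

/-- the finite Goldbach graph `G_n` on `{0, 2, …, 2n}` -/
def gold (n : ℕ) : SimpleGraph {a : ℕ // Even a ∧ a ≤ 2 * n} where
  Adj a b := a ≠ b ∧ (((a.1 + b.1) / 2).Prime ∧ (a.1 + b.1) / 2 ≠ 2 ∧ (a.1 + b.1) / 2 < 2 * n) ∧
    ((((a.1 : ℤ) - b.1).natAbs / 2).Prime ∧ ((a.1 : ℤ) - b.1).natAbs / 2 ≠ 2 ∧
      ((a.1 : ℤ) - b.1).natAbs / 2 < 2 * n)
  symm := ⟨fun a b h => by
    rw [add_comm b.1 a.1, ← Int.natAbs_neg ((b.1 : ℤ) - a.1), neg_sub]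
    exact ⟨h.1.symm, h.2⟩⟩
  loopless := ⟨fun _ h => h.1 rfl⟩

/-- all but at most `e` vertices `v` have distance at most `5` from one of at most `K` vertices, and all but at
most `e` vertices have at least `m` vertices within distance `3` (`V` is finite in the applications) -/
def Covered {V : Type} (H : SimpleGraph V) (K : ℕ) (m e : ℝ) : Prop :=
  (∃ S : Finset V, S.card ≤ K ∧ ({v : V | ∀ s ∈ S, ¬ H.edist v s ≤ 5}.ncard : ℝ) ≤ e) ∧
    ({v : V | ({w : V | H.edist v w ≤ 3}.ncard : ℝ) < m}.ncard : ℝ) ≤ e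

/-- a maximal family of disjoint balls -/
lemma greedy {V : Type} [Fintype V] (H : SimpleGraph V) (m : ℝ) (hm : 0 < m) (K : ℕ)
    (hK : (Fintype.card V : ℝ) < (K + 1) * m) :
    ∃ S : Finset V, S.card ≤ K ∧ ∀ v : V, m ≤ ({w | H.edist v w ≤ 2}.ncard : ℝ) → ∃ s ∈ S, H.edist v s ≤ 4 := by
  classical
  -- the balls
  obtain ⟨B, hB⟩ : ∃ B : V → Finset V, B = fun v => univ.filter (fun w => H.edist v w ≤ 2) := ⟨_, rfl⟩
  have hBn : ∀ v, {w | H.edist v w ≤ 2}.ncard = (B v).card := by
    intro v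
    rw [hB, Set.ncard_eq_toFinset_card']
    congr 1
    ext w
    simp
  obtain ⟨𝓕, h𝓕⟩ : ∃ 𝓕 : Finset (Finset V), 𝓕 = univ.filter (fun S : Finset V =>
      (∀ s ∈ S, m ≤ ((B s).card : ℝ)) ∧ (S : Set V).PairwiseDisjoint B) := ⟨_, rfl⟩
  have hne : 𝓕.Nonempty := ⟨∅, by rw [h𝓕]; simp⟩
  obtain ⟨S, hS, hmax⟩ := 𝓕.exists_max_image Finset.card hne
  have hS' := hS
  rw [h𝓕, mem_filter] at hS'
  obtain ⟨-, hS1, hS2⟩ := hS'
  refine ⟨S, ?_, ?_⟩
  · by_contra hcon
    push Not at hcon
    have h1 : (K : ℝ) + 1 ≤ S.card := by exact_mod_cast hcon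
    have h2 : (S.card : ℝ) * m ≤ ∑ s ∈ S, ((B s).card : ℝ) := by
      rw [← nsmul_eq_mul]
      exact card_nsmul_le_sum _ _ _ hS1
    have h3 : ∑ s ∈ S, ((B s).card : ℝ) ≤ Fintype.card V := by
      have h4 : ∑ s ∈ S, (B s).card = (S.biUnion B).card := (card_biUnion hS2).symm
      have h5 : (S.biUnion B).card ≤ Fintype.card V := card_le_univ _
      rw [← h4] at h5
      exact_mod_cast h5
    nlinarith
  · intro v hv
    rw [hBn] at hv
    by_contra hcon
    push Not at hcon
    have hvS : v ∉ S := by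
      intro h
      have := hcon v h
      rw [SimpleGraph.edist_self] at this
      exact absurd this (by simp)
    have hdis : ∀ s ∈ S, Disjoint (B v) (B s) := by
      intro s hs
      rw [Finset.disjoint_left]
      intro w hw1 hw2
      rw [hB] at hw1 hw2
      simp only [mem_filter, mem_univ, true_and] at hw1 hw2
      have h1 : H.edist v s ≤ H.edist v w + H.edist w s := SimpleGraph.edist_triangle
      have h2 : H.edist w s = H.edist s w := SimpleGraph.edist_comm
      have h3 : H.edist v s ≤ 2 + 2 := h1.trans (add_le_add hw1 (h2 ▸ hw2))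
      have h4 := hcon s hs
      have h5 : (2 : ℕ∞) + 2 = 4 := by norm_num
      rw [h5] at h3
      exact absurd h3 (not_le.2 h4)
    have hin : insert v S ∈ 𝓕 := by
      rw [h𝓕, mem_filter]
      refine ⟨mem_univ _, ?_, ?_⟩
      · intro s hs
        rw [mem_insert] at hs
        rcases hs with rfl | hs
        · exact hv
        · exact hS1 s hs
      · rw [coe_insert]
        rw [Set.pairwiseDisjoint_insert]
        refine ⟨hS2, fun s hs _ => hdis s hs⟩
    have := hmax _ hin
    rw [card_insert_of_notMem hvS] at this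
    omega

/-- the vertices are numbered by the `x ≤ n`, the adjacency is that of the halves -/
lemma few {V : Type} [Fintype V] (H : SimpleGraph V) (n : ℕ) (f : ℕ → V) (c : ℝ) (hc : 0 < c)
    (hn : 0 < n) (hinj : Set.InjOn f (Icc 1 n : Finset ℕ)) (hadj : ∀ x ∈ Icc 1 n, ∀ y ∈ Icc 1 n, E x y → H.Adj (f x) (f y))
    (e : ℝ) (Ex : Finset ℕ) (hEx : (Ex.card : ℝ) + 1 ≤ e)
    (hsurj : {v : V | ∀ x ∈ Icc 1 n, f x ≠ v}.ncard ≤ 1)
    (h : ∀ x ∈ Icc 1 n, x ∉ Ex → c * n ≤ (T2 x : ℝ) ∨ ∃ y ∈ Icc 1 n, E y x ∧ c * n ≤ (T2 y : ℝ))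
    (hV : Fintype.card V ≤ n + 1) (K : ℕ) (hK : 2 / c ≤ K) : Covered H K (c * n) e := by
  classical
  have hnr : (1 : ℝ) ≤ n := by exact_mod_cast hn
  have hball : ∀ x ∈ Icc 1 n, c * n ≤ (T2 x : ℝ) → c * n ≤ ({w | H.edist (f x) w ≤ 2}.ncard : ℝ) := by
    intro x hx hT
    refine hT.trans ?_
    have h1 : T2 x ≤ {w | H.edist (f x) w ≤ 2}.ncard := by
      unfold T2
      rw [← card_image_of_injOn (s := (Ico 1 x).filter (fun z => 0 < N2 x z)) (f := f)]
      · rw [← Set.ncard_coe_finset]
        apply Set.ncard_le_ncard _ (Set.toFinite _)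
        intro w hw
        simp only [coe_image, coe_filter, Set.mem_image, Set.mem_ofPred_eq, mem_Ico] at hw
        obtain ⟨z, ⟨⟨hz1, hz2⟩, hz3⟩, rfl⟩ := hw
        unfold N2 at hz3
        rw [card_pos] at hz3
        obtain ⟨y, hy⟩ := hz3
        rw [mem_filter, mem_Ioo] at hy
        rw [mem_Icc] at hx
        have a1 := hadj x (mem_Icc.2 hx) y (mem_Icc.2 ⟨by omega, by omega⟩) hy.2.1
        have a2 := hadj y (mem_Icc.2 ⟨by omega, by omega⟩) z (mem_Icc.2 ⟨by omega, by omega⟩) hy.2.2
        show H.edist (f x) (f z) ≤ 2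
        have := SimpleGraph.Walk.edist_le (SimpleGraph.Walk.cons a1 (SimpleGraph.Walk.cons a2 SimpleGraph.Walk.nil))
        simpa using this
      · apply hinj.mono
        intro z hz
        rw [mem_Icc] at hx
        simp only [coe_filter, Set.mem_ofPred_eq, mem_Ico] at hz
        rw [mem_coe, mem_Icc]
        omega
    exact_mod_cast h1
  obtain ⟨S, hS1, hS2⟩ := greedy H (c * n) (by positivity) K (by
    have h1 : (Fintype.card V : ℝ) ≤ n + 1 := by exact_mod_cast hV
    rw [div_le_iff₀ hc] at hK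
    have : (2 : ℝ) * n ≤ (K * c) * n := mul_le_mul_of_nonneg_right hK (by positivity)
    nlinarith [mul_pos hc (lt_of_lt_of_le zero_lt_one hnr)])
  -- the exceptional vertices
  have hfin : ∀ T : Set V, T ⊆ ((Ex.image f : Finset V) : Set V) ∪ {v : V | ∀ x ∈ Icc 1 n, f x ≠ v} → (T.ncard : ℝ) ≤ e := by
    intro T hsub
    have h1 := Set.ncard_le_ncard hsub (Set.toFinite _)
    have h2 := Set.ncard_union_le ((Ex.image f : Finset V) : Set V) {v : V | ∀ x ∈ Icc 1 n, f x ≠ v}
    rw [Set.ncard_coe_finset] at h2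
    have h3 : (Ex.image f).card ≤ Ex.card := card_image_le
    have h4 : T.ncard ≤ Ex.card + 1 := by omega
    have h5 : (T.ncard : ℝ) ≤ Ex.card + 1 := by exact_mod_cast h4
    linarith
  refine ⟨⟨S, hS1, hfin _ ?_⟩, hfin _ ?_⟩
  · intro v hv
    by_cases hvf : ∀ x ∈ Icc 1 n, f x ≠ v
    · exact Or.inr hvf
    left
    push Not at hvf
    obtain ⟨x, hx, rfl⟩ := hvf
    rw [mem_coe, mem_image]
    refine ⟨x, ?_, rfl⟩
    by_contra hxE
    rcases h x hx hxE with h1 | ⟨y, hy, hyx, h1⟩
    · obtain ⟨s, hs, hd⟩ := hS2 (f x) (hball x hx h1)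
      exact hv s hs (hd.trans (by norm_num))
    · obtain ⟨s, hs, hd⟩ := hS2 (f y) (hball y hy h1)
      have a1 := (hadj y hy x hx hyx).symm
      have a2 : H.edist (f x) (f y) ≤ 1 := by
        have := SimpleGraph.Walk.edist_le (SimpleGraph.Walk.cons a1 SimpleGraph.Walk.nil)
        simpa using this
      have a3 : H.edist (f x) s ≤ H.edist (f x) (f y) + H.edist (f y) s := SimpleGraph.edist_triangle
      have a4 : H.edist (f x) s ≤ 1 + 4 := a3.trans (add_le_add a2 hd)
      have a5 : (1 : ℕ∞) + 4 = 5 := by norm_num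
      rw [a5] at a4
      exact hv s hs a4
  · intro v hv
    by_cases hvf : ∀ x ∈ Icc 1 n, f x ≠ v
    · exact Or.inr hvf
    left
    push Not at hvf
    obtain ⟨x, hx, rfl⟩ := hvf
    rw [mem_coe, mem_image]
    refine ⟨x, ?_, rfl⟩
    by_contra hxE
    rw [Set.mem_ofPred_eq] at hv
    rcases h x hx hxE with h1 | ⟨y, hy, hyx, h1⟩
    · have h2 := hball x hx h1
      have h3 : {w | H.edist (f x) w ≤ 2}.ncard ≤ {w | H.edist (f x) w ≤ 3}.ncard := by
        apply Set.ncard_le_ncard _ (Set.toFinite _)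
        intro w hw
        exact le_trans (show H.edist (f x) w ≤ 2 from hw) (by norm_num)
      have h3' : ({w | H.edist (f x) w ≤ 2}.ncard : ℝ) ≤ {w | H.edist (f x) w ≤ 3}.ncard := by exact_mod_cast h3
      linarith
    · have h2 := hball y hy h1
      have a1 := (hadj y hy x hx hyx).symm
      have a2 : H.edist (f x) (f y) ≤ 1 := by
        have := SimpleGraph.Walk.edist_le (SimpleGraph.Walk.cons a1 SimpleGraph.Walk.nil)
        simpa using this
      have h3 : {w | H.edist (f y) w ≤ 2}.ncard ≤ {w | H.edist (f x) w ≤ 3}.ncard := by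
        apply Set.ncard_le_ncard _ (Set.toFinite _)
        intro w hw
        have a3 : H.edist (f x) w ≤ H.edist (f x) (f y) + H.edist (f y) w := SimpleGraph.edist_triangle
        have a4 : H.edist (f x) w ≤ 1 + 2 := a3.trans (add_le_add a2 hw)
        have a5 : (1 : ℕ∞) + 2 = 3 := by norm_num
        rw [a5] at a4
        exact a4
      have h3' : ({w | H.edist (f y) w ≤ 2}.ncard : ℝ) ≤ {w | H.edist (f x) w ≤ 3}.ncard := by exact_mod_cast h3
      linarith

/-- the odd primes on the edges -/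
lemma E_odd {x y : ℕ} (hy : 1 ≤ y) (h : E x y) : x + y ≠ 2 ∧ x - y ≠ 2 := by
  obtain ⟨h1, h2, h3⟩ := h
  have h4 : x + y ≠ 2 := by omega
  refine ⟨h4, fun h5 => ?_⟩
  have h6 := h2.eq_one_or_self_of_dvd 2 ⟨y + 1, by omega⟩
  omega

/-- **Main theorem.** There are `K` and `c > 0` such that for every `A` and all large `n`, in both graphs all but at
most `n / log^A n` vertices have distance at most `5` from one of at most `K` vertices, and all but at most
`n / log^A n` vertices have at least `c n` vertices within distance `3`. -/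
theorem result : ∃ K : ℕ, ∃ c : ℝ, 0 < c ∧ ∀ A : ℕ, ∃ N : ℕ, ∀ n : ℕ, N ≤ n →
    Covered (gold n) K (c * n) (n / Real.log n ^ A) ∧ Covered (near n) K (c * n) (n / Real.log n ^ A) := by
  classical
  obtain ⟨c, hc, h⟩ := core
  refine ⟨⌈2 / c⌉₊, c, hc, fun A => ?_⟩
  obtain ⟨n₀, hn₀⟩ := h (A + 1)
  obtain ⟨n1, hn1⟩ := Pool.Agent.H373R2.T7.ev_log' (A + 1) 1
  obtain ⟨n2, hn2⟩ := Pool.Agent.H373R2.T7.ev_L' 2
  refine ⟨max n₀ (max n1 (max n2 3)), fun n hn => ?_⟩
  have b0 : n₀ ≤ n := (le_max_left _ _).trans hn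
  have b1 : n1 ≤ n := ((le_max_left _ _).trans (le_max_right _ _)).trans hn
  have b2 : n2 ≤ n := ((le_max_left _ _).trans ((le_max_right _ _).trans (le_max_right _ _))).trans hn
  have b3 : 3 ≤ n := ((le_max_right _ _).trans ((le_max_right _ _).trans (le_max_right _ _))).trans hn
  have e1 := hn1 n b1
  have e2 := hn2 n b2
  obtain ⟨Ex, -, hEx, hmain⟩ := hn₀ n b0
  have hnr : (3 : ℝ) ≤ n := by exact_mod_cast b3
  have hone : (Ex.card : ℝ) + 1 ≤ n / Real.log n ^ A := by
    have h1 : (1 : ℝ) ≤ n / Real.log n ^ (A + 1) := by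
      rw [le_div_iff₀ (by positivity), one_mul]
      have h2 : √(n : ℝ) ≤ n := by
        rw [Real.sqrt_le_left (by linarith)]
        nlinarith
      linarith
    have h2 : (2 : ℝ) * (n / Real.log n ^ (A + 1)) ≤ n / Real.log n ^ A := by
      rw [pow_succ, ← mul_div_assoc, div_le_div_iff₀ (by positivity) (by positivity)]
      have : (0 : ℝ) < n * Real.log n ^ A := by positivity
      nlinarith
    linarith
  constructor
  · -- the Goldbach graph
    let f : ℕ → {a : ℕ // Even a ∧ a ≤ 2 * n} := fun x => if h : x ≤ n then ⟨2 * x, ⟨x, by ring⟩, by omega⟩ else ⟨0, by decide, by omega⟩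
    have hf : ∀ x, x ≤ n → (f x).1 = 2 * x := by
      intro x hx
      simp only [f]
      rw [dif_pos hx]
    have hfin : Finite {a : ℕ // Even a ∧ a ≤ 2 * n} := by
      apply Finite.of_injective (fun a : {a : ℕ // Even a ∧ a ≤ 2 * n} => (⟨a.1 / 2, by have := a.2.2; omega⟩ : Fin (n + 1)))
      intro a b hab
      simp only [Fin.mk.injEq] at hab
      obtain ⟨k, hk⟩ := a.2.1
      obtain ⟨l, hl⟩ := b.2.1
      apply Subtype.ext
      omega
    have : Fintype {a : ℕ // Even a ∧ a ≤ 2 * n} := Fintype.ofFinite _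
    refine few (gold n) n f c hc (by omega) ?_ ?_ _ Ex hone ?_ hmain ?_ _ (Nat.le_ceil _)
    · intro x hx y hy hxy
      rw [mem_coe, mem_Icc] at hx hy
      have := congrArg Subtype.val hxy
      rw [hf x hx.2, hf y hy.2] at this
      omega
    · intro x hx y hy hE
      rw [mem_Icc] at hx hy
      obtain ⟨o1, o2⟩ := E_odd hy.1 hE
      obtain ⟨h1, h2, h3⟩ := hE
      have hfx := hf x hx.2
      have hfy := hf y hy.2
      refine ⟨fun h => ?_, ?_, ?_⟩
      · rw [← h, hfx] at hfy
        omega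
      · have e : ((f x).1 + (f y).1) / 2 = x + y := by omega
        rw [e]
        exact ⟨h2, o1, by omega⟩
      · have e : (((f x).1 : ℤ) - (f y).1).natAbs / 2 = x - y := by omega
        rw [e]
        exact ⟨h3, o2, by omega⟩
    · have hsub : {v | ∀ x ∈ Icc 1 n, f x ≠ v} ⊆ {f 0} := by
        intro v hv
        obtain ⟨k, hk⟩ := v.2.1
        have hk2 := v.2.2
        rw [Set.mem_singleton_iff]
        apply Subtype.ext
        rw [hf 0 (Nat.zero_le n)]
        by_contra hne
        apply hv k (mem_Icc.2 ⟨by omega, by omega⟩)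
        apply Subtype.ext
        rw [hf k (by omega)]
        omega
      refine (Set.ncard_le_ncard hsub (Set.toFinite _)).trans ?_
      rw [Set.ncard_singleton]
    · have := Fintype.card_le_of_injective (fun a : {a : ℕ // Even a ∧ a ≤ 2 * n} => (⟨a.1 / 2, by have := a.2.2; omega⟩ : Fin (n + 1))) (by
        intro a b hab
        simp only [Fin.mk.injEq] at hab
        obtain ⟨k, hk⟩ := a.2.1
        obtain ⟨l, hl⟩ := b.2.1
        apply Subtype.ext
        omega)
      rwa [Fintype.card_fin] at this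
  · -- the near Goldbach graph
    let f : ℕ → Vtx n := fun x => if h : 1 ≤ x ∧ x ≤ n then ⟨2 * x, ⟨x, by ring⟩, by omega, by omega⟩ else ⟨2, by decide, by omega, by omega⟩
    have hf : ∀ x, 1 ≤ x → x ≤ n → (f x).1 = 2 * x := by
      intro x hx hx'
      simp only [f]
      rw [dif_pos ⟨hx, hx'⟩]
    have hi : Function.Injective (fun a : Vtx n => (⟨a.1 / 2, by have := a.2.2.2; omega⟩ : Fin (n + 1))) := by
      intro a b hab
      simp only [Fin.mk.injEq] at hab
      obtain ⟨k, hk⟩ := a.2.1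
      obtain ⟨l, hl⟩ := b.2.1
      apply Subtype.ext
      omega
    have hfin : Finite (Vtx n) := Finite.of_injective _ hi
    have : Fintype (Vtx n) := Fintype.ofFinite _
    refine few (near n) n f c hc (by omega) ?_ ?_ _ Ex hone ?_ hmain ?_ _ (Nat.le_ceil _)
    · intro x hx y hy hxy
      rw [mem_coe, mem_Icc] at hx hy
      have := congrArg Subtype.val hxy
      rw [hf x hx.1 hx.2, hf y hy.1 hy.2] at this
      omega
    · intro x hx y hy hE
      rw [mem_Icc] at hx hy
      obtain ⟨o1, o2⟩ := E_odd hy.1 hE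
      obtain ⟨h1, h2, h3⟩ := hE
      have hfx := hf x hx.1 hx.2
      have hfy := hf y hy.1 hy.2
      refine ⟨fun h => ?_, Or.inr ?_, Or.inr ?_⟩
      · rw [← h, hfx] at hfy
        omega
      · have e : ((f x).1 + (f y).1) / 2 = x + y := by omega
        rw [e]
        exact ⟨h2, o1, by omega⟩
      · have e : (((f x).1 : ℤ) - (f y).1).natAbs / 2 = x - y := by omega
        rw [e]
        exact ⟨h3, o2, by omega⟩
    · have hemp : {v | ∀ x ∈ Icc 1 n, f x ≠ v} = ∅ := by
        rw [Set.eq_empty_iff_forall_notMem]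
        intro v hv
        obtain ⟨k, hk⟩ := v.2.1
        have hk1 := v.2.2.1
        have hk2 := v.2.2.2
        apply hv k (mem_Icc.2 ⟨by omega, by omega⟩)
        apply Subtype.ext
        rw [hf k (by omega) (by omega)]
        omega
      rw [hemp, Set.ncard_empty]
      omega
    · have := Fintype.card_le_of_injective _ hi
      rwa [Fintype.card_fin] at this

end Pool.Agent.Results.MP_443e5f_co.FewBalls
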